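import Pool.Agent.H70.SO.Fin

/-!
# Slit disc parametrisations of the double: the improved inequality
-/

open MeasureTheory Set Filter Topology
open scoped ENNReal

noncomputable section

namespace Pool.Agent.H70.SO

open Pool.Agent.H70.SD

variable {M : Type} [MetricSpace M]

/-- The slit data of a slit disc. -/
theorem slit_data {φ : C1 → M} (hφ : ∀ s t : C1, dist (φ s) (φ t) = dist s t) {S : Set ℂ}
    {F : ℂ → M × Bool} {lam : ℂ → ℝ≥0∞} (h : SlitDisc φ S F lam) :
    ∃ inn out : ℂ → DT M, @SlitData (DT M) (dblMetric hφ) Real.pi S h.circles.toFinset inn out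
      lam := by
  classical
  let _ : PseudoMetricSpace (DT M) := dblMetric hφ
  have hdist : ∀ p q : DT M, dist p q = doubleDist φ p q := fun _ _ => rfl
  let G : ℂ → DT M := F
  have hnon : Nonempty (M × Bool) := ⟨F 0⟩
  choose! p p' hp1 hp2 hp3 using h.inner
  choose! q q' hq1 hq2 hq3 using h.outer
  have hlim : ∀ {A : Set ℂ} {z : ℂ} {x : M × Bool}, Lim φ F A z x →
      Tendsto G (𝓝[A] z) (𝓝 (x : DT M)) := by
    intro A z x hx
    exact (tendsto_iff_dist_tendsto_zero (α := DT M) (f := G) (a := x)).2 hx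
  let inn : ℂ → DT M := fun z => if z ∈ S then p z else G z
  let out : ℂ → DT M := fun z => if z ∈ S then q z else G z
  have hinnS : ∀ z ∈ S, inn z = p z := fun z hz => if_pos hz
  have houtS : ∀ z ∈ S, out z = q z := fun z hz => if_pos hz
  have hinnN : ∀ z ∉ S, inn z = G z := fun z hz => if_neg hz
  have houtN : ∀ z ∉ S, out z = G z := fun z hz => if_neg hz
  have hcont : ∀ z, ‖z‖ ≤ 1 → z ∉ S → ContinuousWithinAt G ({w | ‖w‖ ≤ 1} \ S) z :=
    fun z hz hzS => hlim (h.cont z hz hzS)
  have hI := ext_inn (F := G) (inn := inn) h.circles hcont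
    (fun z hz => by rw [hinnS z hz]; exact hlim (hp1 z hz)) hinnN
  have hO := ext_out (F := G) (out := out) h.circles (fun z hz => (h.inside z hz).2) hcont
    (fun z hz => by rw [houtS z hz]; exact hlim (hq1 z hz)) houtN
  -- antipodal points are at distance at least `π`
  have hfar : ∀ x y : M × Bool, Opposite φ x y → Real.pi ≤ doubleDist φ x y := by
    rintro x y (hxy | hxy)
    · have h1 := pi_le_doubleDist_flip hφ x
      have h2 := doubleDist_triangle hφ x y (flip x)
      linarith
    · exact hxy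
  have hnorm : ∀ z : ℂ, {w : ℂ | ‖w‖ < ‖z‖} = Metric.ball 0 ‖z‖ := by intro z; ext v; simp
  have hnorm' : ∀ z : ℂ, {w : ℂ | ‖z‖ < ‖w‖} = (Metric.closedBall 0 ‖z‖)ᶜ := by
    intro z; ext v; simp
  have hneI : ∀ z : ℂ, z ≠ 0 → (𝓝[{w : ℂ | ‖w‖ < ‖z‖}] (-z)).NeBot := by
    intro z hz
    rw [← mem_closure_iff_nhdsWithin_neBot, hnorm, closure_ball _ (norm_ne_zero_iff.2 hz)]
    simp
  have hneO : ∀ z : ℂ, z ≠ 0 → (𝓝[{w : ℂ | ‖z‖ < ‖w‖}] (-z)).NeBot := by
    intro z hz
    rw [← mem_closure_iff_nhdsWithin_neBot, hnorm', closure_compl,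
      interior_closedBall _ (norm_ne_zero_iff.2 hz)]
    simp
  have hdat : SlitData (X := DT M) Real.pi S h.circles.toFinset inn out lam := by
    refine ⟨?_, ?_, ?_, hI, hO, ?_, ?_, ?_, h.meas, ?_⟩
    · intro r hr
      obtain ⟨z, hz, rfl⟩ := h.circles.mem_toFinset.1 hr
      exact h.inside z hz
    · intro z hz
      exact h.circles.mem_toFinset.2 ⟨z, hz, rfl⟩
    · intro z hz
      rw [hinnN z hz, houtN z hz]
    · -- far_inn
      intro z hz
      have hz0 : z ≠ 0 := norm_pos_iff.1 (h.inside z hz).1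
      have := hneI z hz0
      rw [hinnS z hz]
      have h0 : Real.pi ≤ @dist (DT M) _ (p z) (p' z) := hfar _ _ (hp3 z hz)
      have h1 : Tendsto G (𝓝[{w : ℂ | ‖w‖ < ‖z‖}] (-z)) (𝓝 (p' z : DT M)) := hlim (hp2 z hz)
      have h2 : Tendsto G (𝓝[{w : ℂ | ‖w‖ < ‖z‖}] (-z)) (𝓝 (inn (-z))) := by
        have hzn : ‖-z‖ ≤ 1 := by rw [norm_neg]; exact (h.inside z hz).2.le
        have h3 : Tendsto inn (𝓝[{w : ℂ | ‖w‖ < ‖z‖}] (-z)) (𝓝 (inn (-z))) := by
          have := hI (-z) hzn
          refine Tendsto.mono_left this (nhdsWithin_mono _ ?_)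
          intro w hw
          show ‖w‖ ≤ ‖-z‖
          rw [norm_neg]
          exact le_of_lt hw
        refine h3.congr' ?_
        have h4 := near_norm h.circles (-z)
        rw [EventuallyEq, eventually_nhdsWithin_iff]
        filter_upwards [h4] with w hw hlt
        refine hinnN w fun hwS => ?_
        have := hw ⟨w, hwS, rfl⟩
        rw [norm_neg] at this
        exact (show ‖w‖ < ‖z‖ from hlt).ne this
      have h5 : Tendsto (fun w => dist (G w) (G w)) (𝓝[{w : ℂ | ‖w‖ < ‖z‖}] (-z))
        (𝓝 (dist (inn (-z)) (p' z : DT M))) := h2.dist h1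
      simp only [dist_self] at h5
      have h6 := tendsto_nhds_unique h5 tendsto_const_nhds
      have h7 := dist_triangle (α := DT M) (p z) (inn (-z)) (p' z)
      linarith
    · -- far_out
      intro z hz
      have hz0 : z ≠ 0 := norm_pos_iff.1 (h.inside z hz).1
      have := hneO z hz0
      rw [houtS z hz]
      have h0 : Real.pi ≤ @dist (DT M) _ (q z) (q' z) := hfar _ _ (hq3 z hz)
      have h1 : Tendsto G (𝓝[{w : ℂ | ‖z‖ < ‖w‖}] (-z)) (𝓝 (q' z : DT M)) := hlim (hq2 z hz)
      have h2 : Tendsto G (𝓝[{w : ℂ | ‖z‖ < ‖w‖}] (-z)) (𝓝 (out (-z))) := by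
        have hzn : ‖-z‖ < 1 := by rw [norm_neg]; exact (h.inside z hz).2
        have h3 : Tendsto out (𝓝[{w : ℂ | ‖z‖ < ‖w‖}] (-z)) (𝓝 (out (-z))) := by
          have := hO (-z) hzn.le
          refine Tendsto.mono_left this (nhdsWithin_le_iff.2 ?_)
          rw [mem_nhdsWithin_iff_eventually]
          have h2 : ∀ᶠ w : ℂ in 𝓝 (-z), ‖w‖ < 1 :=
            continuous_norm.continuousAt.eventually_lt_const hzn
          filter_upwards [h2] with w hw hlt
          refine ⟨?_, hw.le⟩
          rw [norm_neg]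
          exact le_of_lt hlt
        refine h3.congr' ?_
        have h4 := near_norm h.circles (-z)
        rw [EventuallyEq, eventually_nhdsWithin_iff]
        filter_upwards [h4] with w hw hlt
        refine houtN w fun hwS => ?_
        have := hw ⟨w, hwS, rfl⟩
        rw [norm_neg] at this
        exact (show ‖z‖ < ‖w‖ from hlt).ne' this
      have h5 : Tendsto (fun w => dist (G w) (G w)) (𝓝[{w : ℂ | ‖z‖ < ‖w‖}] (-z))
        (𝓝 (dist (out (-z)) (q' z : DT M))) := h2.dist h1
      simp only [dist_self] at h5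
      have h6 := tendsto_nhds_unique h5 tendsto_const_nhds
      have h7 := dist_triangle (α := DT M) (q z) (out (-z)) (q' z)
      linarith
    · -- far_bd
      intro z hz
      have hzS : z ∉ S := fun hS => (h.inside z hS).2.ne hz
      have hzS' : -z ∉ S := fun hS => (h.inside _ hS).2.ne (by rw [norm_neg, hz])
      rw [hinnN z hzS, hinnN _ hzS', hdist]
      exact hfar _ _ (h.circle z hz)
    · -- length
      intro γ γ' a b hab hd hc hin
      rw [hinnN _ (hin a (left_mem_Icc.2 hab)).2, hinnN _ (hin b (right_mem_Icc.2 hab)).2, hdist]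
      exact h.length γ γ' a b hab hd hc hin
  exact ⟨inn, out, hdat⟩

end Pool.Agent.H70.SO
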