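import Pool.Agent.H70.SO.Lin

/-!
# Great circles inside the innermost slit circle
-/

open MeasureTheory Set Filter Topology
open scoped ENNReal

noncomputable section

namespace Pool.Agent.H70.SO

open Pool.Agent.H70.SD

lemma gc_eq (A θ t : ℝ) : gc A 0 1 θ t = pt (A * Real.sin t) (θ + t) := by
  unfold gc
  rw [zero_add, one_mul]

lemma continuous_gc' (A x0 σ w0 : ℝ) : Continuous (gc' A x0 σ w0) := by
  have hcr : Continuous rad := continuous_iff_continuousAt.2 fun t => (hasDerivAt_rad t).continuousAt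
  have hne : ∀ t : ℝ, Real.sqrt (1 + (A * Real.sin (x0 + σ * t)) ^ 2) ≠ 0 :=
    fun t => (sqrt_pos' _).ne'
  unfold gc'
  refine Continuous.add (Continuous.mul (Complex.continuous_ofReal.comp (Continuous.mul
    (Continuous.div ?_ ?_ hne) ?_)) ?_) (Continuous.mul ?_ ?_)
  · fun_prop
  · fun_prop
  · fun_prop
  · fun_prop
  · exact Complex.continuous_ofReal.comp (hcr.comp (by fun_prop))
  · fun_prop

theorem arc_path {X : Type*} [PseudoMetricSpace X] {c : ℝ} {S : Set ℂ} {R : Finset ℝ}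
    {inn out : ℂ → X} {lam : ℂ → ℝ≥0∞} (h : SlitData c S R inn out lam) {r : ℝ} (hr : 0 < r)
    (hr1 : r < 1) (hmin : ∀ z ∈ S, r ≤ ‖z‖) {θ : ℝ}
    (hθ : (r : ℂ) * pt 0 θ ∈ S ∨ -((r : ℂ) * pt 0 θ) ∈ S) {A : ℝ} (hA : 0 < A) :
    ENNReal.ofReal c ≤ ∫⁻ t in Ioo 0 Real.pi, lam (r * pt (A * Real.sin t) (θ + t)) *
      ENNReal.ofReal (r * spd A (A * Real.sin t)) := by
  have hpi := Real.pi_pos
  set γ : ℝ → ℂ := fun t => r * gc A 0 1 θ t with hγ
  set γ' : ℝ → ℂ := fun t => r * gc' A 0 1 θ t with hγ'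
  have hd : ∀ t, HasDerivAt γ (γ' t) t := fun t => (hasDerivAt_gc A 0 1 θ t).const_mul _
  have hc : Continuous γ' := continuous_const.mul (continuous_gc' A 0 1 θ)
  have hγc : Continuous γ := continuous_iff_continuousAt.2 fun t => (hd t).continuousAt
  have hnorm : ∀ t, ‖γ t‖ = r * rad (A * Real.sin t) := by
    intro t
    simp only [hγ]
    rw [norm_mul, gc_eq, norm_pt, Complex.norm_real, Real.norm_of_nonneg hr.le]
  have hlt : ∀ t ∈ Ioo 0 Real.pi, ‖γ t‖ < r := by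
    intro t ht
    rw [hnorm]
    have hs : 0 < Real.sin t := Real.sin_pos_of_pos_of_lt_pi ht.1 ht.2
    have := rad_lt_one (show 0 < A * Real.sin t by positivity)
    nlinarith
  have h0 : γ 0 = r * pt 0 θ := by simp only [hγ]; rw [gc_eq]; simp
  have hπ : γ Real.pi = -γ 0 := by
    rw [h0]; simp only [hγ]; rw [gc_eq, Real.sin_pi, mul_zero, pt_add_pi]; ring
  have hn0 : ‖γ 0‖ = r := by rw [hnorm]; simp [rad_zero]
  have hnπ : ‖γ Real.pi‖ = r := by rw [hπ, norm_neg, hn0]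
  have key : ∀ ε ∈ Ioo 0 (Real.pi / 2), ENNReal.ofReal (dist (inn (γ ε)) (inn (γ (Real.pi - ε)))) ≤
      ∫⁻ t in Ioo 0 Real.pi, lam (γ t) * ‖γ' t‖ₑ := by
    intro ε hε
    have h1 := h.upper γ γ' ε (Real.pi - ε) (by linarith [hε.2]) (fun t _ => hd t)
      hc.continuousOn (fun t ht => by
        have h2 := hlt t ⟨by linarith [ht.1, hε.1], by linarith [ht.2, hε.1]⟩
        exact ⟨h2.trans hr1, fun hS => absurd (hmin _ hS) (not_le.2 h2)⟩)
    refine h1.trans (lintegral_mono_set ?_)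
    intro t ht
    exact ⟨by linarith [ht.1, hε.1], by linarith [ht.2, hε.1]⟩
  have ta : Tendsto (fun ε : ℝ => inn (γ ε)) (𝓝[>] 0) (𝓝 (inn (γ 0))) := by
    have h1 := h.cont_inn (γ 0) (hn0.le.trans hr1.le)
    have h2 : Tendsto γ (𝓝[>] 0) (𝓝[{w | ‖w‖ ≤ ‖γ 0‖}] (γ 0)) := by
      rw [tendsto_nhdsWithin_iff]
      refine ⟨(hγc.tendsto 0).mono_left nhdsWithin_le_nhds, ?_⟩
      filter_upwards [Ioo_mem_nhdsGT hpi] with ε hε
      show ‖γ ε‖ ≤ ‖γ 0‖
      rw [hn0]; exact (hlt ε hε).le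
    exact h1.tendsto.comp h2
  have tb : Tendsto (fun ε : ℝ => inn (γ (Real.pi - ε))) (𝓝[>] 0) (𝓝 (inn (γ Real.pi))) := by
    have h1 := h.cont_inn (γ Real.pi) (hnπ.le.trans hr1.le)
    have h2 : Tendsto (fun ε : ℝ => γ (Real.pi - ε)) (𝓝[>] 0)
        (𝓝[{w | ‖w‖ ≤ ‖γ Real.pi‖}] (γ Real.pi)) := by
      rw [tendsto_nhdsWithin_iff]
      constructor
      · have h3 : Continuous fun ε : ℝ => γ (Real.pi - ε) := by fun_prop
        have h4 := h3.tendsto 0
        rw [sub_zero] at h4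
        exact h4.mono_left nhdsWithin_le_nhds
      · filter_upwards [Ioo_mem_nhdsGT hpi] with ε hε
        show ‖γ (Real.pi - ε)‖ ≤ ‖γ Real.pi‖
        rw [hnπ]
        exact (hlt _ ⟨by linarith [hε.2], by linarith [hε.1]⟩).le
    exact h1.tendsto.comp h2
  have tt := ENNReal.tendsto_ofReal (ta.dist tb)
  have hlim : ENNReal.ofReal (dist (inn (γ 0)) (inn (γ Real.pi))) ≤
      ∫⁻ t in Ioo 0 Real.pi, lam (γ t) * ‖γ' t‖ₑ := by
    refine le_of_tendsto tt ?_
    filter_upwards [Ioo_mem_nhdsGT (show (0 : ℝ) < Real.pi / 2 by linarith)] with ε hε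
    exact key ε hε
  have hfar : c ≤ dist (inn (γ 0)) (inn (γ Real.pi)) := by
    rw [hπ]
    refine (far_cond h ?_).1
    rw [h0]; exact hθ
  refine (ENNReal.ofReal_le_ofReal hfar).trans (hlim.trans (le_of_eq ?_))
  refine lintegral_congr fun t => ?_
  simp only [hγ, hγ']
  rw [gc_eq, ← ofReal_norm, norm_mul, norm_gc' _ _ _ _ _ (by norm_num), Complex.norm_real,
    Real.norm_of_nonneg hr.le, zero_add, one_mul]

end Pool.Agent.H70.SO
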