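import Pool.Agent.H70.SO.FamA

/-!
# The energy of the family
-/

open MeasureTheory Set Filter Topology
open scoped ENNReal

noncomputable section

namespace Pool.Agent.H70.SO

open Pool.Agent.H70.SD

variable {T : Set ℂ} {r : ℝ}

lemma norm_rpt (hr : 0 < r) (v w : ℝ) : ‖(r : ℂ) * pt v w‖ = r * rad v := by
  rw [norm_mul, norm_pt, Complex.norm_real, Real.norm_of_nonneg hr.le]

lemma int_FF (hT : MeasurableSet T) (hr : 0 < r) {v : ℝ} (hv : 0 < v) :
    ∫⁻ w in Ioo 0 (2 * Real.pi), FF T r v w =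
      ENNReal.ofReal (1 / (2 * r * rad v * Real.sqrt (1 + v ^ 2))) * mass T r := by
  unfold FF
  have hP := (measurable_PP (r := r) hT).comp (measurable_prodMk_left (x := v))
  have h1 := lintegral_const_mul (μ := volume.restrict (Ioo 0 (2 * Real.pi)))
    (ENNReal.ofReal (1 / (2 * Real.pi * r * rad v))) hP
  refine h1.trans ?_
  have h2 := int_PP (r := r) hT hv
  show ENNReal.ofReal (1 / (2 * Real.pi * r * rad v)) *
    ∫⁻ w in Ioo 0 (2 * Real.pi), PP T r v w = _
  have hpi := Real.pi_pos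
  have q2 := sqrt_pos' v
  have q3 := rad_pos v
  rw [h2, ← mul_assoc, ← ENNReal.ofReal_mul (by positivity)]
  congr 2
  field_simp

lemma cross_wt (hT : MeasurableSet T) (hr : 0 < r) (hr1 : r < 1) :
    ∫⁻ v in Ioi (0 : ℝ), JJ r v * ∫⁻ w in Ioo 0 (2 * Real.pi), wt (r * pt v w) * FF T r v w =
      ENNReal.ofReal (qq r / 2) * mass T r := by
  have hrm := measurable_rad
  have h1 : ∀ v ∈ Ioi (0 : ℝ), JJ r v * ∫⁻ w in Ioo 0 (2 * Real.pi),
      wt (r * pt v w) * FF T r v w = ENNReal.ofReal r *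
        (ENNReal.ofReal (rad v / ((1 + v ^ 2) * (1 + r ^ 2 * rad v ^ 2))) * mass T r) := by
    intro v hv
    have hv' : 0 < v := hv
    have e1 : ∀ w, wt (r * pt v w) * FF T r v w =
        ENNReal.ofReal (2 / (1 + (r * rad v) ^ 2)) * FF T r v w := by
      intro w; unfold wt; rw [norm_rpt hr]
    simp only [e1]
    have hF := (measurable_FF (r := r) hT).comp (measurable_prodMk_left (x := v))
    have h2 := lintegral_const_mul (μ := volume.restrict (Ioo 0 (2 * Real.pi)))
      (ENNReal.ofReal (2 / (1 + (r * rad v) ^ 2))) hF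
    have h3 : ∫⁻ w in Ioo 0 (2 * Real.pi), ENNReal.ofReal (2 / (1 + (r * rad v) ^ 2)) *
        FF T r v w = _ := h2
    rw [h3]
    show JJ r v * (ENNReal.ofReal (2 / (1 + (r * rad v) ^ 2)) *
      ∫⁻ w in Ioo 0 (2 * Real.pi), FF T r v w) = _
    rw [int_FF hT hr hv']
    have q2 := sqrt_pos' v
    have q3 := rad_pos v
    have q4 := sq_sqrt' v
    unfold JJ
    rw [← mul_assoc, ← mul_assoc, ← mul_assoc, ← ENNReal.ofReal_mul (by positivity),
      ← ENNReal.ofReal_mul (by positivity), ← ENNReal.ofReal_mul (by positivity)]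
    congr 2
    nth_rewrite 3 [← q4]
    field_simp
  rw [setLIntegral_congr_fun measurableSet_Ioi h1]
  have hm : Measurable (fun v : ℝ =>
      ENNReal.ofReal (rad v / ((1 + v ^ 2) * (1 + r ^ 2 * rad v ^ 2)))) := by fun_prop
  rw [lintegral_const_mul _ (hm.mul_const _), lintegral_mul_const _ hm, log_int hr hr1, ← mul_assoc,
    ← ENNReal.ofReal_mul hr.le]
  congr 2
  unfold qq
  ring

lemma FF_le (hr : 0 < r) {v : ℝ} (hv : 0 < v) (w : ℝ) :
    FF T r v w ≤ ENNReal.ofReal (1 / (2 * r * rad v * Real.sqrt (1 + v ^ 2))) := by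
  have hpi := Real.pi_pos
  have q2 := sqrt_pos' v
  have q3 := rad_pos v
  unfold FF
  refine (mul_le_mul_right (PP_le hv w) _).trans (le_of_eq ?_)
  rw [← ENNReal.ofReal_mul (by positivity)]
  congr 1
  field_simp

lemma energy (hT : MeasurableSet T) (hr : 0 < r) :
    ∫⁻ v in Ioi (0 : ℝ), JJ r v * ∫⁻ w in Ioo 0 (2 * Real.pi), FF T r v w ^ 2 ≤
      ENNReal.ofReal (1 / 4) * mass T r := by
  have hrm := measurable_rad
  have h1 : ∀ v ∈ Ioi (0 : ℝ), JJ r v * ∫⁻ w in Ioo 0 (2 * Real.pi), FF T r v w ^ 2 ≤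
      ENNReal.ofReal (1 / 4) * (ENNReal.ofReal (1 / ((1 + v ^ 2) * Real.sqrt (1 + v ^ 2))) *
        mass T r) := by
    intro v hv
    have hv' : 0 < v := hv
    have q2 := sqrt_pos' v
    have q3 := rad_pos v
    have q4 := sq_sqrt' v
    have hF := (measurable_FF (r := r) hT).comp (measurable_prodMk_left (x := v))
    have h2 := lintegral_const_mul (μ := volume.restrict (Ioo 0 (2 * Real.pi)))
      (ENNReal.ofReal (1 / (2 * r * rad v * Real.sqrt (1 + v ^ 2)))) hF
    have e1 : ∫⁻ w in Ioo 0 (2 * Real.pi), FF T r v w ^ 2 ≤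
        ENNReal.ofReal (1 / (2 * r * rad v * Real.sqrt (1 + v ^ 2))) *
          ∫⁻ w in Ioo 0 (2 * Real.pi), FF T r v w := by
      refine (lintegral_mono fun w => ?_).trans_eq h2
      show FF T r v w ^ 2 ≤ ENNReal.ofReal (1 / (2 * r * rad v * Real.sqrt (1 + v ^ 2))) *
        FF T r v w
      rw [sq]
      exact mul_le_mul_left (FF_le hr hv' w) _
    refine (mul_le_mul_right e1 _).trans (le_of_eq ?_)
    rw [int_FF hT hr hv']
    unfold JJ
    rw [← mul_assoc, ← mul_assoc, ← mul_assoc, ← ENNReal.ofReal_mul (by positivity),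
      ← ENNReal.ofReal_mul (by positivity), ← ENNReal.ofReal_mul (by positivity)]
    congr 2
    nth_rewrite 4 [← q4]
    field_simp
    norm_num
  refine (setLIntegral_mono' measurableSet_Ioi h1).trans (le_of_eq ?_)
  have hm : Measurable (fun v : ℝ =>
      ENNReal.ofReal (1 / ((1 + v ^ 2) * Real.sqrt (1 + v ^ 2)))) := by fun_prop
  rw [lintegral_const_mul _ (hm.mul_const _), lintegral_mul_const _ hm, cube_int, one_mul]

end Pool.Agent.H70.SO
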