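import Pool.Agent.H70.SO.FamD
import Pool.Agent.H70.SO.Cross

/-!
# The improved inequality
-/

open MeasureTheory Set Filter Topology
open scoped ENNReal

noncomputable section

namespace Pool.Agent.H70.SO

open Pool.Agent.H70.SD

variable {T : Set ℂ} {r : ℝ}

/-- the area measure of the disc of radius `r` in the coordinates `v`, `w` -/
def nu (r : ℝ) : Measure (ℝ × ℝ) :=
  ((volume.restrict (Ioi (0 : ℝ))).prod (volume.restrict (Ioo 0 (2 * Real.pi)))).withDensity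
    (fun p => JJ r p.1)

lemma nu_eq {g : ℝ × ℝ → ℝ≥0∞} (hg : Measurable g) :
    ∫⁻ v in Ioi (0 : ℝ), JJ r v * ∫⁻ w in Ioo 0 (2 * Real.pi), g (v, w) = ∫⁻ p, g p ∂(nu r) := by
  have hf : Measurable (fun p : ℝ × ℝ => p.1) := measurable_fst
  have hJ := (measurable_JJ (r := r)).comp hf
  have h1 := lintegral_withDensity_eq_lintegral_mul
    ((volume.restrict (Ioi (0 : ℝ))).prod (volume.restrict (Ioo 0 (2 * Real.pi)))) hJ hg
  have h2 := lintegral_prod (μ := volume.restrict (Ioi (0 : ℝ)))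
    (ν := volume.restrict (Ioo 0 (2 * Real.pi))) (fun p => JJ r p.1 * g p) (hJ.mul hg).aemeasurable
  refine Eq.symm (h1.trans (h2.trans ?_))
  refine lintegral_congr fun v => ?_
  have h3 := hg.comp (measurable_prodMk_left (x := v))
  exact lintegral_const_mul (μ := volume.restrict (Ioo 0 (2 * Real.pi))) (JJ r v) h3

lemma ball_eq (hr : 0 < r) {f : ℂ → ℝ≥0∞} (hf : Measurable f) :
    ∫⁻ z in Metric.ball (0 : ℂ) r, f z = ∫⁻ p, f (r * pt p.1 p.2) ∂(nu r) := by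
  have h1 := measurable_lam (r := r) hf
  rw [← nu_eq h1]
  exact lintegral_disc_r hr hf

lemma split (hr1 : r < 1) (f : ℂ → ℝ≥0∞) :
    ∫⁻ z in Metric.ball (0 : ℂ) 1, f z = (∫⁻ z in Metric.ball (0 : ℂ) 1 \ Metric.ball 0 r, f z) +
      ∫⁻ z in Metric.ball (0 : ℂ) r, f z := by
  have hm : MeasurableSet (Metric.ball (0 : ℂ) r) := measurableSet_ball
  rw [← lintegral_inter_add_sdiff f (Metric.ball (0 : ℂ) 1) hm, add_comm]
  congr 2
  congr 1
  exact inter_eq_right.2 (Metric.ball_subset_ball hr1.le)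

lemma mass_le : mass T r ≤ ENNReal.ofReal (2 * Real.pi) := by
  unfold mass
  calc _ ≤ ∫⁻ _w in Ioo 0 (2 * Real.pi), (1 : ℝ≥0∞) := lintegral_mono fun w => chi_le w
    _ = _ := by rw [setLIntegral_const, one_mul, Real.volume_Ioo, sub_zero]

theorem slit_open {X : Type*} [PseudoMetricSpace X] {S : Set ℂ} {R : Finset ℝ}
    {inn out : ℂ → X} {lam : ℂ → ℝ≥0∞} (h : SlitData Real.pi S R inn out lam) (hr : 0 < r)
    (hr1 : r < 1) (hmin : ∀ z ∈ S, r ≤ ‖z‖) (hT : MeasurableSet T)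
    (hTS : ∀ z ∈ T, z ∈ S ∨ -z ∈ S) :
    ENNReal.ofReal (2 * Real.pi) + ENNReal.ofReal ((1 - qq r) ^ 2) * mass T r ≤
      ∫⁻ z in Metric.ball (0 : ℂ) 1, lam z ^ 2 := by
  have hm := h.meas
  have hw := measurable_wt
  have hF := measurable_FF (r := r) hT
  have hq0 := qq_nonneg hr hr1
  have hq1 := qq_lt_one hr hr1
  set q := qq r with hq
  have hmass : mass T r ≠ ⊤ := ne_top_of_le_ne_top ENNReal.ofReal_ne_top mass_le
  set O : Set ℂ := Metric.ball (0 : ℂ) 1 \ Metric.ball 0 r with hO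
  set σ : ℝ≥0∞ := ENNReal.ofReal (2 * (1 - q)) with hσ
  have mlw : Measurable (fun z => lam z * wt z) := hm.mul hw
  have ml2 : Measurable (fun z => lam z ^ 2) := hm.pow_const 2
  have mw2 : Measurable (fun z => wt z ^ 2) := hw.pow_const 2
  -- the five facts
  have f1 := slit_lin h
  rw [split hr1, ball_eq hr mlw] at f1
  have f2 := fam_lin h hr hr1 hmin hT hTS
  have g2 : Measurable fun p : ℝ × ℝ => lam (r * pt p.1 p.2) * FF T r p.1 p.2 :=
    (measurable_lam hm).mul hF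
  rw [nu_eq g2] at f2
  have f3 := cross_wt hT hr hr1
  have g3 : Measurable fun p : ℝ × ℝ => wt (r * pt p.1 p.2) * FF T r p.1 p.2 :=
    (measurable_lam hw).mul hF
  rw [nu_eq g3] at f3
  have f4 := energy (r := r) hT hr
  have g4 : Measurable fun p : ℝ × ℝ => FF T r p.1 p.2 ^ 2 := hF.pow_const 2
  rw [nu_eq g4] at f4
  have f5 := hemisphere_area
  have e5 : ∫⁻ z in Metric.ball (0 : ℂ) 1, ENNReal.ofReal (2 / (1 + ‖z‖ ^ 2)) ^ 2 =
    ∫⁻ z in Metric.ball (0 : ℂ) 1, wt z ^ 2 := rfl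
  rw [e5, split hr1, ball_eq hr mw2] at f5
  have f6 : ∫⁻ z in Metric.ball (0 : ℂ) 1, lam z ^ 2 = (∫⁻ z in O, lam z ^ 2) +
      ∫⁻ p, lam (r * pt p.1 p.2) ^ 2 ∂(nu r) := by
    rw [split hr1, ball_eq hr ml2]
  rw [f6]
  -- the inequality outside
  have k1 : 2 * ∫⁻ z in O, lam z * wt z ≤ (∫⁻ z in O, lam z ^ 2) + ∫⁻ z in O, wt z ^ 2 := by
    rw [← lintegral_const_mul _ mlw, ← lintegral_add_left ml2]
    exact lintegral_mono fun z => ennreal_two_mul_le _ _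
  -- the inequality inside
  have m1 : Measurable fun p : ℝ × ℝ => lam (r * pt p.1 p.2) * wt (r * pt p.1 p.2) :=
    (measurable_lam (r := r) hm).mul (measurable_lam (r := r) hw)
  have m2 : Measurable fun p : ℝ × ℝ => lam (r * pt p.1 p.2) ^ 2 :=
    (measurable_lam (r := r) hm).pow_const 2
  have m3 : Measurable fun p : ℝ × ℝ => wt (r * pt p.1 p.2) ^ 2 :=
    (measurable_lam (r := r) hw).pow_const 2
  have k2 : 2 * ∫⁻ p, lam (r * pt p.1 p.2) * wt (r * pt p.1 p.2) ∂(nu r) +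
      2 * σ * ∫⁻ p, lam (r * pt p.1 p.2) * FF T r p.1 p.2 ∂(nu r) ≤
      (∫⁻ p, lam (r * pt p.1 p.2) ^ 2 ∂(nu r)) + (∫⁻ p, wt (r * pt p.1 p.2) ^ 2 ∂(nu r)) +
      2 * σ * (∫⁻ p, wt (r * pt p.1 p.2) * FF T r p.1 p.2 ∂(nu r)) +
      σ ^ 2 * ∫⁻ p, FF T r p.1 p.2 ^ 2 ∂(nu r) := by
    have m4 : Measurable fun p : ℝ × ℝ => lam (r * pt p.1 p.2) ^ 2 + wt (r * pt p.1 p.2) ^ 2 :=
      m2.add m3
    have m5 : Measurable fun p : ℝ × ℝ => lam (r * pt p.1 p.2) ^ 2 + wt (r * pt p.1 p.2) ^ 2 +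
        2 * σ * (wt (r * pt p.1 p.2) * FF T r p.1 p.2) := m4.add (g3.const_mul _)
    rw [← lintegral_const_mul _ m1, ← lintegral_const_mul _ g2, ← lintegral_const_mul _ g3,
      ← lintegral_const_mul _ g4, ← lintegral_add_left (m1.const_mul _),
      ← lintegral_add_left m2, ← lintegral_add_left m4, ← lintegral_add_left m5]
    refine lintegral_mono fun p => ?_
    have := ennreal_two_mul_le (lam (r * pt p.1 p.2)) (wt (r * pt p.1 p.2) + σ * FF T r p.1 p.2)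
    show 2 * (lam (r * pt p.1 p.2) * wt (r * pt p.1 p.2)) +
      2 * σ * (lam (r * pt p.1 p.2) * FF T r p.1 p.2) ≤
      lam (r * pt p.1 p.2) ^ 2 + wt (r * pt p.1 p.2) ^ 2 +
      2 * σ * (wt (r * pt p.1 p.2) * FF T r p.1 p.2) + σ ^ 2 * FF T r p.1 p.2 ^ 2
    calc _ = 2 * (lam (r * pt p.1 p.2) * (wt (r * pt p.1 p.2) + σ * FF T r p.1 p.2)) := by ring
      _ ≤ _ := this
      _ = _ := by ring
  set I1 := ∫⁻ z in O, lam z ^ 2
  set I2 := ∫⁻ p, lam (r * pt p.1 p.2) ^ 2 ∂(nu r)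
  set a1 := ∫⁻ z in O, lam z * wt z
  set a2 := ∫⁻ p, lam (r * pt p.1 p.2) * wt (r * pt p.1 p.2) ∂(nu r)
  set b1 := ∫⁻ z in O, wt z ^ 2
  set b2 := ∫⁻ p, wt (r * pt p.1 p.2) ^ 2 ∂(nu r)
  set c2 := ∫⁻ p, lam (r * pt p.1 p.2) * FF T r p.1 p.2 ∂(nu r)
  rw [f3] at k2
  have tot : 2 * ENNReal.ofReal (2 * Real.pi) + σ * mass T r ≤
      (I1 + I2) + ENNReal.ofReal (2 * Real.pi) +
        (2 * σ * (ENNReal.ofReal (q / 2) * mass T r) +
          σ ^ 2 * (ENNReal.ofReal (1 / 4) * mass T r)) := by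
    calc _ ≤ 2 * (a1 + a2) + σ * (2 * c2) := by gcongr
      _ = 2 * a1 + (2 * a2 + 2 * σ * c2) := by ring
      _ ≤ (I1 + b1) + (I2 + b2 + 2 * σ * (ENNReal.ofReal (q / 2) * mass T r) +
          σ ^ 2 * ∫⁻ p, FF T r p.1 p.2 ^ 2 ∂(nu r)) := add_le_add k1 k2
      _ ≤ (I1 + b1) + (I2 + b2 + 2 * σ * (ENNReal.ofReal (q / 2) * mass T r) +
          σ ^ 2 * (ENNReal.ofReal (1 / 4) * mass T r)) := by gcongr
      _ = (I1 + I2) + (b1 + b2) + (2 * σ * (ENNReal.ofReal (q / 2) * mass T r) +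
          σ ^ 2 * (ENNReal.ofReal (1 / 4) * mass T r)) := by ring
      _ = _ := by
          rw [show b1 + b2 = ENNReal.ofReal (2 * Real.pi) from f5]
  have e1 : 2 * σ * (ENNReal.ofReal (q / 2) * mass T r) +
      σ ^ 2 * (ENNReal.ofReal (1 / 4) * mass T r) =
      ENNReal.ofReal ((1 - q) * (1 + q)) * mass T r := by
    rw [hσ, ← ENNReal.ofReal_ofNat, ← ENNReal.ofReal_pow (by linarith), ← mul_assoc, ← mul_assoc,
      ← ENNReal.ofReal_mul (by norm_num), ← ENNReal.ofReal_mul (by nlinarith),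
      ← ENNReal.ofReal_mul (by positivity), ← add_mul,
      ← ENNReal.ofReal_add (by nlinarith [mul_nonneg (sub_nonneg.2 hq1.le) hq0]) (by positivity)]
    congr 2
    ring
  have e2 : σ * mass T r = ENNReal.ofReal ((1 - q) ^ 2) * mass T r +
      ENNReal.ofReal ((1 - q) * (1 + q)) * mass T r := by
    rw [hσ, ← add_mul, ← ENNReal.ofReal_add (by positivity) (by nlinarith)]
    congr 2
    ring
  rw [e1, e2] at tot
  have hfin : ENNReal.ofReal (2 * Real.pi) + ENNReal.ofReal ((1 - q) * (1 + q)) * mass T r ≠ ⊤ :=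
    ENNReal.add_ne_top.2 ⟨ENNReal.ofReal_ne_top, ENNReal.mul_ne_top ENNReal.ofReal_ne_top hmass⟩
  rw [← ENNReal.add_le_add_iff_right hfin]
  calc _ = 2 * ENNReal.ofReal (2 * Real.pi) + (ENNReal.ofReal ((1 - q) ^ 2) * mass T r +
      ENNReal.ofReal ((1 - q) * (1 + q)) * mass T r) := by ring
    _ ≤ _ := tot
    _ = _ := by ring

end Pool.Agent.H70.SO
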