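import Pool.Agent.H70.SO.Lin

/-!
# Integrals
-/

open MeasureTheory Set Filter Topology
open scoped ENNReal

noncomputable section

namespace Pool.Agent.H70.SO

open Pool.Agent.H70.SD

lemma ker_int {v : ℝ} (hv : 0 < v) :
    ∫⁻ t in Ioo 0 Real.pi, ENNReal.ofReal (v / (Real.sin t ^ 2 + v ^ 2)) =
      ENNReal.ofReal (Real.pi / Real.sqrt (1 + v ^ 2)) := by
  have hpi := Real.pi_pos
  have h1 := abel_inner hv
  have h2 : ∫⁻ t in Ioo (Real.pi / 2) Real.pi, ENNReal.ofReal (v / (Real.sin t ^ 2 + v ^ 2)) =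
      ENNReal.ofReal (Real.pi / (2 * Real.sqrt (1 + v ^ 2))) := by
    rw [← h1]
    have e3 : (fun x => Real.pi - x) '' Ioo 0 (Real.pi / 2) = Ioo (Real.pi / 2) Real.pi := by
      rw [Set.image_const_sub_Ioo]
      congr 1 <;> ring
    rw [← e3]
    have := ((Measure.measurePreserving_sub_left volume Real.pi).setLIntegral_comp_emb
      (MeasurableEquiv.subLeft _).measurableEmbedding
      (fun t => ENNReal.ofReal (v / (Real.sin t ^ 2 + v ^ 2))) (Ioo 0 (Real.pi / 2)))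
    rw [← this]
    refine lintegral_congr fun t => ?_
    rw [Real.sin_pi_sub]
  rw [restrict_Ioo_eq_restrict_Ioc] at h1 h2 ⊢
  rw [← Ioc_union_Ioc_eq_Ioc (show (0 : ℝ) ≤ Real.pi / 2 by linarith)
    (show Real.pi / 2 ≤ Real.pi by linarith), lintegral_union measurableSet_Ioc, h1, h2,
    ← ENNReal.ofReal_add (by positivity) (by positivity)]
  · congr 1
    have := sqrt_pos' v
    field_simp
    norm_num
  · rw [Set.disjoint_left]
    rintro x ⟨_, h1⟩ ⟨h2, _⟩
    linarith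

lemma abel_subst' (K : ℝ → ℝ≥0∞) {s : ℝ} (hs : 0 < s) :
    ∫⁻ A in Ioi (0 : ℝ), ENNReal.ofReal (A / (1 + A ^ 2)) * K (A * s) =
      ∫⁻ v in Ioi (0 : ℝ), ENNReal.ofReal (v / (s ^ 2 + v ^ 2)) * K v := by
  have himg : (fun A => A * s) '' Ioi 0 = Ioi 0 := by
    ext y
    constructor
    · rintro ⟨A, hA, rfl⟩
      exact mul_pos hA hs
    · intro hy
      exact ⟨y / s, div_pos hy hs, by field_simp⟩
  conv_rhs => rw [← himg]
  rw [lintegral_image_eq_lintegral_abs_deriv_mul (f' := fun _ => s) measurableSet_Ioi]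
  · refine setLIntegral_congr_fun measurableSet_Ioi fun A hA => ?_
    have hA' : 0 < A := hA
    rw [← mul_assoc, abs_of_pos hs, ← ENNReal.ofReal_mul hs.le]
    congr 2
    have : 1 + A ^ 2 ≠ 0 := by positivity
    have h2 : s ^ 2 + (A * s) ^ 2 ≠ 0 := by positivity
    field_simp
  · intro A _
    have := ((hasDerivAt_id A).mul_const s).hasDerivWithinAt (s := Ioi 0)
    simpa using this
  · intro A _ B _ h
    exact mul_right_cancel₀ hs.ne' h

lemma cube_int :
    ∫⁻ v in Ioi (0 : ℝ), ENNReal.ofReal (1 / ((1 + v ^ 2) * Real.sqrt (1 + v ^ 2))) = 1 := by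
  have hd : ∀ x ∈ Ici (0 : ℝ), HasDerivAt (fun v => v / Real.sqrt (1 + v ^ 2))
      (1 / ((1 + x ^ 2) * Real.sqrt (1 + x ^ 2))) x := by
    intro x _
    have hp := sqrt_pos' x
    have hp2 := sq_sqrt' x
    have h1 : HasDerivAt (fun A : ℝ => Real.sqrt (1 + A ^ 2)) (2 * x / (2 * Real.sqrt (1 + x ^ 2)))
        x := by
      have := (((hasDerivAt_id x).pow 2).const_add 1).sqrt (show 1 + id x ^ 2 ≠ 0 by
        simp only [id]; positivity)
      simpa using this
    have h2 := (hasDerivAt_id x).div h1 hp.ne'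
    refine h2.congr_deriv ?_
    simp only [id]
    rw [hp2]
    have : (1 + x ^ 2) ≠ 0 := by positivity
    field_simp
    nlinarith
  have hpos : ∀ x ∈ Ioi (0 : ℝ), 0 ≤ 1 / ((1 + x ^ 2) * Real.sqrt (1 + x ^ 2)) := by
    intro x _
    have := sqrt_pos' x
    positivity
  have hlim : Tendsto (fun v : ℝ => v / Real.sqrt (1 + v ^ 2)) atTop (𝓝 1) := by
    have h1 : Tendsto (fun v : ℝ => 1 - rad v) atTop (𝓝 (1 - 0)) := tendsto_rad.const_sub 1
    rw [sub_zero] at h1
    refine tendsto_of_tendsto_of_tendsto_of_le_of_le' h1 tendsto_const_nhds ?_ ?_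
    · filter_upwards [eventually_gt_atTop 0] with v hv
      have h2 := sqrt_pos' v
      have h3 : 1 ≤ Real.sqrt (1 + v ^ 2) := Real.one_le_sqrt.2 (by nlinarith [sq_nonneg v])
      have h4 : v ≤ Real.sqrt (1 + v ^ 2) := Real.le_sqrt_of_sq_le (by simp)
      rw [le_div_iff₀ h2]
      unfold rad
      nlinarith
    · filter_upwards with v
      have h2 := sqrt_pos' v
      rw [div_le_one h2]
      exact Real.le_sqrt_of_sq_le (by simp)
  rw [← ofReal_integral_eq_lintegral_ofReal (integrableOn_Ioi_deriv_of_nonneg' hd hpos hlim),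
    integral_Ioi_of_hasDerivAt_of_nonneg' hd hpos hlim]
  · simp
  · exact (ae_restrict_iff' measurableSet_Ioi).2 (Eventually.of_forall fun x hx => hpos x hx)

lemma log_int {r : ℝ} (hr : 0 < r) (hr1 : r < 1) :
    ∫⁻ v in Ioi (0 : ℝ), ENNReal.ofReal (rad v / ((1 + v ^ 2) * (1 + r ^ 2 * rad v ^ 2))) =
      ENNReal.ofReal (Real.log (2 / (1 + r ^ 2)) / (1 - r ^ 2)) := by
  have hr2 : 0 < 1 - r ^ 2 := by nlinarith
  have hd : ∀ x ∈ Ici (0 : ℝ), HasDerivAt
      (fun v => -((Real.log (1 + rad v ^ 2) - Real.log (1 + r ^ 2 * rad v ^ 2)) / (1 - r ^ 2)))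
      (rad x / ((1 + x ^ 2) * (1 + r ^ 2 * rad x ^ 2))) x := by
    intro x _
    have hp := sqrt_pos' x
    have hp2 := sq_sqrt' x
    have hx := rad_pos x
    have h1 : HasDerivAt (fun v => rad v ^ 2) (2 * rad x * (-(rad x) / Real.sqrt (1 + x ^ 2))) x :=
      ((hasDerivAt_rad x).pow 2).congr_deriv (by push_cast; ring)
    have h2 := (h1.const_add 1).log (show 1 + (rad x) ^ 2 ≠ 0 by positivity)
    have h3 := ((h1.const_mul (r ^ 2)).const_add 1).log
      (show 1 + r ^ 2 * (rad x) ^ 2 ≠ 0 by positivity)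
    have h4 := ((h2.sub h3).div_const (1 - r ^ 2)).neg
    refine h4.congr_deriv ?_
    have e1 := rad_sq_eq x
    have e2 : 1 + x ^ 2 = Real.sqrt (1 + x ^ 2) * Real.sqrt (1 + x ^ 2) := by
      rw [← sq]; exact hp2.symm
    set q := Real.sqrt (1 + x ^ 2) with hq
    set ρ := rad x with hρ
    rw [e2]
    have a1 : 1 + ρ ^ 2 ≠ 0 := by positivity
    have a2 : 1 + r ^ 2 * ρ ^ 2 ≠ 0 := by positivity
    have a3 : 1 - r ^ 2 ≠ 0 := hr2.ne'
    field_simp
    rw [e1]
    linear_combination (2 * ρ * q * r ^ 2) * e1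
  have hpos : ∀ x ∈ Ioi (0 : ℝ), 0 ≤ rad x / ((1 + x ^ 2) * (1 + r ^ 2 * rad x ^ 2)) := by
    intro x _
    have := rad_pos x
    positivity
  have hlim : Tendsto (fun v => -((Real.log (1 + rad v ^ 2) - Real.log (1 + r ^ 2 * rad v ^ 2)) /
      (1 - r ^ 2))) atTop (𝓝 (-((Real.log (1 + 0 ^ 2) - Real.log (1 + r ^ 2 * 0 ^ 2)) /
      (1 - r ^ 2)))) := by
    refine (Tendsto.div_const (Tendsto.sub ?_ ?_) _).neg
    · exact (tendsto_const_nhds.add (tendsto_rad.pow 2)).log (by norm_num)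
    · exact (tendsto_const_nhds.add ((tendsto_rad.pow 2).const_mul _)).log (by norm_num)
  rw [← ofReal_integral_eq_lintegral_ofReal (integrableOn_Ioi_deriv_of_nonneg' hd hpos hlim),
    integral_Ioi_of_hasDerivAt_of_nonneg' hd hpos hlim]
  · congr 1
    rw [rad_zero, Real.log_div (by norm_num) (by positivity)]
    norm_num
  · exact (ae_restrict_iff' measurableSet_Ioi).2 (Eventually.of_forall fun x hx => hpos x hx)

/-- The ratio of the mean spherical length of the great circles of the disc of radius `r` and `π`. -/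
def qq (r : ℝ) : ℝ := 2 * r * Real.log (2 / (1 + r ^ 2)) / (1 - r ^ 2)

lemma qq_nonneg {r : ℝ} (hr : 0 < r) (hr1 : r < 1) : 0 ≤ qq r := by
  have hr2 : 0 < 1 - r ^ 2 := by nlinarith
  have h1 : 0 ≤ Real.log (2 / (1 + r ^ 2)) := by
    apply Real.log_nonneg
    rw [le_div_iff₀ (by positivity)]
    nlinarith
  unfold qq
  positivity

lemma qq_lt_one {r : ℝ} (hr : 0 < r) (hr1 : r < 1) : qq r < 1 := by
  have hr2 : 0 < 1 - r ^ 2 := by nlinarith
  have h1 : Real.log (2 / (1 + r ^ 2)) ≤ 2 / (1 + r ^ 2) - 1 :=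
    Real.log_le_sub_one_of_pos (by positivity)
  have h2 : 2 / (1 + r ^ 2) - 1 = (1 - r ^ 2) / (1 + r ^ 2) := by field_simp; ring
  rw [h2] at h1
  unfold qq
  rw [div_lt_one hr2]
  calc 2 * r * Real.log (2 / (1 + r ^ 2)) ≤ 2 * r * ((1 - r ^ 2) / (1 + r ^ 2)) :=
        mul_le_mul_of_nonneg_left h1 (by positivity)
    _ = (2 * r / (1 + r ^ 2)) * (1 - r ^ 2) := by ring
    _ < 1 * (1 - r ^ 2) := by
        refine mul_lt_mul_of_pos_right ?_ hr2
        rw [div_lt_one (by positivity)]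
        nlinarith [sq_nonneg (1 - r), mul_self_pos.2 (sub_ne_zero.2 hr1.ne')]
    _ = _ := one_mul _

end Pool.Agent.H70.SO
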