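import Pool.Agent.H70.SO.Lin

/-!
# Polar coordinates in the disc of radius `r`
-/

open MeasureTheory Set Filter Topology
open scoped ENNReal

noncomputable section

namespace Pool.Agent.H70.SO

open Pool.Agent.H70.SD

lemma lintegral_ball_r {r : ℝ} (hr : 0 < r) {f : ℂ → ℝ≥0∞} (hf : Measurable f) :
    ∫⁻ z in Metric.ball (0 : ℂ) r, f z =
      ENNReal.ofReal (r ^ 2) * ∫⁻ z in Metric.ball (0 : ℂ) 1, f (r * z) := by
  have hb : MeasurableSet (Metric.ball (0 : ℂ) r) := measurableSet_ball
  have hb1 : MeasurableSet (Metric.ball (0 : ℂ) 1) := measurableSet_ball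
  rw [← lintegral_indicator hb, ← lintegral_indicator hb1]
  have h1 := Measure.map_addHaar_smul (volume : Measure ℂ) hr.ne'
  have h2 : ∫⁻ y, (Metric.ball (0 : ℂ) r).indicator f y
      ∂(Measure.map (fun z : ℂ => r • z) volume) =
      ∫⁻ z, (Metric.ball (0 : ℂ) r).indicator f (r • z) :=
    lintegral_map (hf.indicator hb) (by fun_prop)
  rw [h1, lintegral_smul_measure, Complex.finrank_real_complex] at h2
  have h3 : ∀ z : ℂ, (Metric.ball (0 : ℂ) r).indicator f (r • z) =
      (Metric.ball (0 : ℂ) 1).indicator (fun z => f (r * z)) z := by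
    intro z
    have h4 : r • z ∈ Metric.ball (0 : ℂ) r ↔ z ∈ Metric.ball (0 : ℂ) 1 := by
      rw [Metric.mem_ball, Metric.mem_ball, dist_zero_right, dist_zero_right, norm_smul,
        Real.norm_of_nonneg hr.le]
      constructor
      · intro h; nlinarith
      · intro h; nlinarith
    by_cases hz : z ∈ Metric.ball (0 : ℂ) 1
    · rw [indicator_of_mem hz, indicator_of_mem (h4.2 hz), Complex.real_smul]
    · rw [indicator_of_notMem hz, indicator_of_notMem (fun h => hz (h4.1 h))]
  simp only [h3] at h2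
  rw [← h2, smul_eq_mul, ← mul_assoc, ← ENNReal.ofReal_mul (by positivity),
    abs_of_pos (by positivity), mul_inv_cancel₀ (by positivity), ENNReal.ofReal_one, one_mul]

lemma lintegral_disc_r {r : ℝ} (hr : 0 < r) {f : ℂ → ℝ≥0∞} (hf : Measurable f) :
    ∫⁻ z in Metric.ball (0 : ℂ) r, f z =
      ∫⁻ v in Ioi (0 : ℝ), ENNReal.ofReal (r ^ 2 * (rad v ^ 2 / Real.sqrt (1 + v ^ 2))) *
        ∫⁻ w in Ioo 0 (2 * Real.pi), f (r * pt v w) := by
  have hm : Measurable fun z : ℂ => f (r * z) := hf.comp (by fun_prop)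
  have hm2 : Measurable (fun p : ℝ × ℝ => f (r * pt p.1 p.2)) := hm.comp measurable_pt
  rw [lintegral_ball_r hr hf, lintegral_disc hm, ← lintegral_const_mul]
  · refine lintegral_congr fun v => ?_
    rw [← mul_assoc, ← ENNReal.ofReal_mul (by positivity)]
  · refine Measurable.mul ?_ hm2.lintegral_prod_right'
    unfold rad
    fun_prop

end Pool.Agent.H70.SO
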