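import Pool.Agent.H70.SO.Arc
import Pool.Agent.H70.SO.Ker
import Pool.Agent.H70.SO.Pol

/-!
# The family of great circles of the disc of radius `r` with end points in `T`
-/

open MeasureTheory Set Filter Topology
open scoped ENNReal

noncomputable section

namespace Pool.Agent.H70.SO

open Pool.Agent.H70.SD

/-- The indicator function of the angles of `T` on the circle of radius `r`. -/
def chi (T : Set ℂ) (r w : ℝ) : ℝ≥0∞ := T.indicator 1 ((r : ℂ) * pt 0 w)

def kf (v t : ℝ) : ℝ≥0∞ := ENNReal.ofReal (v / (Real.sin t ^ 2 + v ^ 2))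

def PP (T : Set ℂ) (r v w : ℝ) : ℝ≥0∞ := ∫⁻ t in Ioo 0 Real.pi, kf v t * chi T r (w - t)

/-- The angular measure of `T`. -/
def mass (T : Set ℂ) (r : ℝ) : ℝ≥0∞ := ∫⁻ w in Ioo 0 (2 * Real.pi), chi T r w

def FF (T : Set ℂ) (r v w : ℝ) : ℝ≥0∞ := ENNReal.ofReal (1 / (2 * Real.pi * r * rad v)) * PP T r v w

def JJ (r v : ℝ) : ℝ≥0∞ := ENNReal.ofReal (r ^ 2 * (rad v ^ 2 / Real.sqrt (1 + v ^ 2)))

variable {T : Set ℂ} {r : ℝ}

lemma chi_le (w : ℝ) : chi T r w ≤ 1 := by
  unfold chi
  exact indicator_le_self' (fun _ _ => zero_le_one) _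

lemma chi_per (w : ℝ) : chi T r (w + 2 * Real.pi) = chi T r w := by
  unfold chi; rw [pt_add_two_pi]

lemma measurable_chi (hT : MeasurableSet T) : Measurable (chi T r) := by
  unfold chi
  have h1 : Measurable (T.indicator (1 : ℂ → ℝ≥0∞)) := measurable_one.indicator hT
  have h2 : Measurable (fun w : ℝ => (r : ℂ) * pt 0 w) := by
    have : Measurable (fun w : ℝ => pt 0 w) := measurable_pt.comp measurable_prodMk_left
    exact this.const_mul _
  exact h1.comp h2

lemma measurable_kf : Measurable (fun p : ℝ × ℝ => kf p.1 p.2) := by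
  unfold kf
  fun_prop

lemma measurable_PP (hT : MeasurableSet T) : Measurable (fun p : ℝ × ℝ => PP T r p.1 p.2) := by
  unfold PP
  have h : Measurable (fun q : (ℝ × ℝ) × ℝ => kf q.1.1 q.2 * chi T r (q.1.2 - q.2)) := by
    refine Measurable.mul ?_ ?_
    · exact measurable_kf.comp (by fun_prop : Measurable fun q : (ℝ × ℝ) × ℝ => (q.1.1, q.2))
    · exact (measurable_chi hT).comp (by fun_prop)
  exact h.lintegral_prod_right'

lemma measurable_rad : Measurable rad := by unfold rad; fun_prop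

lemma measurable_FF (hT : MeasurableSet T) : Measurable (fun p : ℝ × ℝ => FF T r p.1 p.2) := by
  unfold FF
  have := measurable_rad
  exact Measurable.mul (by fun_prop) (measurable_PP hT)

lemma measurable_JJ : Measurable (JJ r) := by
  unfold JJ
  have := measurable_rad
  fun_prop

lemma PP_le {v : ℝ} (hv : 0 < v) (w : ℝ) :
    PP T r v w ≤ ENNReal.ofReal (Real.pi / Real.sqrt (1 + v ^ 2)) := by
  rw [← ker_int hv]
  unfold PP kf
  refine lintegral_mono fun t => ?_
  calc _ ≤ ENNReal.ofReal (v / (Real.sin t ^ 2 + v ^ 2)) * 1 := by gcongr; exact chi_le _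
    _ = _ := mul_one _

lemma int_PP (hT : MeasurableSet T) {v : ℝ} (hv : 0 < v) :
    ∫⁻ w in Ioo 0 (2 * Real.pi), PP T r v w =
      ENNReal.ofReal (Real.pi / Real.sqrt (1 + v ^ 2)) * mass T r := by
  unfold PP
  have hm : Measurable (fun p : ℝ × ℝ => kf v p.2 * chi T r (p.1 - p.2)) := by
    refine Measurable.mul ?_ ?_
    · exact measurable_kf.comp (by fun_prop : Measurable fun q : ℝ × ℝ => (v, q.2))
    · exact (measurable_chi hT).comp (by fun_prop)
  rw [lintegral_lintegral_swap hm.aemeasurable]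
  have e : ∀ t, ∫⁻ w in Ioo 0 (2 * Real.pi), kf v t * chi T r (w - t) = kf v t * mass T r := by
    intro t
    have hm1 : Measurable (fun w => chi T r (w - t)) :=
      (measurable_chi hT).comp (measurable_id.sub_const t)
    rw [lintegral_const_mul _ hm1]
    congr 1
    have := lintegral_period (g := chi T r) chi_per (-t)
    unfold mass
    rw [← this]
    refine lintegral_congr fun w => ?_
    congr 1; ring
  simp only [e]
  have hm2 : Measurable (fun t => kf v t) :=
    measurable_kf.comp (by fun_prop : Measurable fun q : ℝ => (v, q))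
  rw [lintegral_mul_const _ hm2]
  congr 1
  exact ker_int hv

/-- the integrand on a great circle -/
def gl (lam : ℂ → ℝ≥0∞) (r A θ t : ℝ) : ℝ≥0∞ := lam (r * pt (A * Real.sin t) (θ + t)) *
      ENNReal.ofReal (r * spd A (A * Real.sin t))

def WW (A : ℝ) : ℝ≥0∞ := ENNReal.ofReal (A / ((1 + A ^ 2) * Real.sqrt (1 + A ^ 2)))

def LL (lam : ℂ → ℝ≥0∞) (T : Set ℂ) (r t v : ℝ) : ℝ≥0∞ :=
  ∫⁻ w in Ioo 0 (2 * Real.pi), lam (r * pt v w) * chi T r (w - t)

lemma measurable_lam {lam : ℂ → ℝ≥0∞} (hm : Measurable lam) :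
    Measurable (fun p : ℝ × ℝ => lam (r * pt p.1 p.2)) :=
  hm.comp (measurable_pt.const_mul _)

lemma measurable_spd2 : Measurable (fun p : ℝ × ℝ => spd p.1 p.2) := by
  unfold spd
  have := measurable_rad
  fun_prop

lemma measurable_gl {lam : ℂ → ℝ≥0∞} (hm : Measurable lam) :
    Measurable (fun q : ℝ × ℝ × ℝ => gl lam r q.1 q.2.1 q.2.2) := by
  unfold gl
  have h1 : Measurable fun q : ℝ × ℝ × ℝ => (q.1 * Real.sin q.2.2, q.2.1 + q.2.2) := by fun_prop
  have h2 : Measurable fun q : ℝ × ℝ × ℝ => (q.1, q.1 * Real.sin q.2.2) := by fun_prop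
  have h3 := (measurable_lam (r := r) hm).comp h1
  have h4 := measurable_spd2.comp h2
  exact h3.mul (ENNReal.measurable_ofReal.comp (h4.const_mul r))

lemma measurable_WW : Measurable WW := by unfold WW; fun_prop

lemma measurable_LL {lam : ℂ → ℝ≥0∞} (hm : Measurable lam) (hT : MeasurableSet T) :
    Measurable (fun p : ℝ × ℝ => LL lam T r p.1 p.2) := by
  unfold LL
  have h1 : Measurable fun q : (ℝ × ℝ) × ℝ => (q.1.2, q.2) := by fun_prop
  have h2 : Measurable fun q : (ℝ × ℝ) × ℝ => q.2 - q.1.1 := by fun_prop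
  have h3 := (measurable_lam (r := r) hm).comp h1
  have h4 := (measurable_chi (r := r) hT).comp h2
  exact (h3.mul h4).lintegral_prod_right'

lemma gl_theta {lam : ℂ → ℝ≥0∞} (hm : Measurable lam) (hT : MeasurableSet T) (A t : ℝ) :
    ∫⁻ θ in Ioo 0 (2 * Real.pi), chi T r θ * gl lam r A θ t =
      ENNReal.ofReal (r * spd A (A * Real.sin t)) * LL lam T r t (A * Real.sin t) := by
  have hper := lintegral_period (g := fun w => lam (r * pt (A * Real.sin t) w) *
    chi T r (w - t)) (fun w => by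
      rw [pt_add_two_pi, show w + 2 * Real.pi - t = w - t + 2 * Real.pi by ring, chi_per]) t
  unfold LL
  rw [← hper, ← lintegral_const_mul]
  · refine lintegral_congr fun θ => ?_
    unfold gl
    rw [show t + θ - t = θ by ring, show t + θ = θ + t by ring]
    ring
  · have h1 : Measurable (fun θ : ℝ => (A * Real.sin t, t + θ)) := by fun_prop
    have h2 : Measurable (fun θ : ℝ => t + θ - t) := by fun_prop
    exact ((measurable_lam (r := r) hm).comp h1).mul ((measurable_chi hT).comp h2)


end Pool.Agent.H70.SO
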