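import Pool.Agent.H70.SO.FamA

/-!
# Fubini for the family of great circles
-/

open MeasureTheory Set Filter Topology
open scoped ENNReal

noncomputable section

namespace Pool.Agent.H70.SO

open Pool.Agent.H70.SD

variable {T : Set ℂ} {r : ℝ}

lemma measurable_glA {lam : ℂ → ℝ≥0∞} (hm : Measurable lam) (A : ℝ) :
    Measurable (fun p : ℝ × ℝ => gl lam r A p.1 p.2) := by
  have hq : Measurable fun p : ℝ × ℝ => (A, p.1, p.2) := by fun_prop
  have h0 := measurable_gl (r := r) hm
  have h1 := h0.comp hq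
  exact h1

lemma gl_swap1 {lam : ℂ → ℝ≥0∞} (hm : Measurable lam) (hT : MeasurableSet T) (A : ℝ) :
    ∫⁻ θ in Ioo 0 (2 * Real.pi), chi T r θ * ∫⁻ t in Ioo 0 Real.pi, gl lam r A θ t =
      ∫⁻ t in Ioo 0 Real.pi, ∫⁻ θ in Ioo 0 (2 * Real.pi), chi T r θ * gl lam r A θ t := by
  have hcm := measurable_chi (r := r) hT
  have hgA := measurable_glA (r := r) hm A
  have hf : Measurable (fun p : ℝ × ℝ => p.1) := measurable_fst
  have hc1 := hcm.comp hf
  have hmm := hc1.mul hgA
  have h2 := lintegral_lintegral_swap (μ := volume.restrict (Ioo 0 (2 * Real.pi)))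
    (ν := volume.restrict (Ioo 0 Real.pi)) (f := fun θ t => chi T r θ * gl lam r A θ t)
    hmm.aemeasurable
  rw [← h2]
  refine lintegral_congr fun θ => ?_
  have h3 := hgA.comp (measurable_prodMk_left (x := θ))
  exact (lintegral_const_mul (chi T r θ) h3).symm

lemma gl_swap {lam : ℂ → ℝ≥0∞} (hm : Measurable lam) (hT : MeasurableSet T) {A : ℝ}
    (hA : 0 < A) (hr : 0 < r) :
    WW A * ∫⁻ θ in Ioo 0 (2 * Real.pi), chi T r θ * ∫⁻ t in Ioo 0 Real.pi, gl lam r A θ t =
    ∫⁻ t in Ioo 0 Real.pi, ENNReal.ofReal (A / (1 + A ^ 2)) *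
      (ENNReal.ofReal (r * rad (A * Real.sin t) / Real.sqrt (1 + (A * Real.sin t) ^ 2)) *
        LL lam T r t (A * Real.sin t)) := by
  have e1 := gl_swap1 (r := r) hm hT A
  have h1 : Measurable (fun t : ℝ => (A, A * Real.sin t)) := by fun_prop
  have h2 : Measurable (fun t : ℝ => (t, A * Real.sin t)) := by fun_prop
  have h3 := measurable_spd2.comp h1
  have h4 := (measurable_LL (r := r) hm hT).comp h2
  have hmt := (ENNReal.measurable_ofReal.comp (h3.const_mul r)).mul h4
  simp only [gl_theta hm hT] at e1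
  rw [e1]
  have e2 := lintegral_const_mul (μ := volume.restrict (Ioo 0 Real.pi)) (WW A) hmt
  refine e2.symm.trans ?_
  refine lintegral_congr fun t => ?_
  show WW A * (ENNReal.ofReal (r * spd A (A * Real.sin t)) * LL lam T r t (A * Real.sin t)) = _
  rw [← mul_assoc, ← mul_assoc]
  unfold WW
  have q1 := sqrt_pos' A
  have q2 := sqrt_pos' (A * Real.sin t)
  have q3 := rad_pos (A * Real.sin t)
  rw [← ENNReal.ofReal_mul (by positivity), ← ENNReal.ofReal_mul (by positivity)]
  congr 2
  unfold spd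
  field_simp

end Pool.Agent.H70.SO
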