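import Pool.Agent.H70.SO.FamA

/-!
# Fubini for the kernel
-/

open MeasureTheory Set Filter Topology
open scoped ENNReal

noncomputable section

namespace Pool.Agent.H70.SO

open Pool.Agent.H70.SD

variable {T : Set ℂ} {r : ℝ}

lemma kf_swap {lam : ℂ → ℝ≥0∞} (hm : Measurable lam) (hT : MeasurableSet T) (v : ℝ) :
    ∫⁻ t in Ioo 0 Real.pi, kf v t * LL lam T r t v =
      ∫⁻ w in Ioo 0 (2 * Real.pi), lam (r * pt v w) * PP T r v w := by
  have hcm := measurable_chi (r := r) hT
  have hkm : Measurable (fun t => kf v t) := by
    have hq : Measurable fun q : ℝ => (v, q) := by fun_prop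
    have := measurable_kf.comp hq
    exact this
  have hlm := measurable_lam (r := r) hm
  have hlv : Measurable (fun w : ℝ => lam (r * pt v w)) := by
    have := hlm.comp (measurable_prodMk_left (x := v))
    exact this
  have e1 : ∀ t, kf v t * LL lam T r t v =
      ∫⁻ w in Ioo 0 (2 * Real.pi), lam (r * pt v w) * (kf v t * chi T r (w - t)) := by
    intro t
    unfold LL
    have hct := hcm.comp (measurable_id.sub_const t)
    have := lintegral_const_mul (μ := volume.restrict (Ioo 0 (2 * Real.pi))) (kf v t) (hlv.mul hct)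
    refine this.symm.trans (lintegral_congr fun w => ?_)
    show kf v t * (lam (r * pt v w) * chi T r (w - t)) = _
    ring
  have h1 : Measurable (fun p : ℝ × ℝ => p.2 - p.1) := by fun_prop
  have hf : Measurable (fun p : ℝ × ℝ => p.1) := measurable_fst
  have hs : Measurable (fun p : ℝ × ℝ => p.2) := measurable_snd
  have a1 := hlv.comp hs
  have a2 := hkm.comp hf
  have a3 := hcm.comp h1
  have hmm := a1.mul (a2.mul a3)
  simp only [e1]
  have h2 := lintegral_lintegral_swap (μ := volume.restrict (Ioo 0 Real.pi))
    (ν := volume.restrict (Ioo 0 (2 * Real.pi)))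
    (f := fun t w => lam (r * pt v w) * (kf v t * chi T r (w - t))) hmm.aemeasurable
  rw [h2]
  refine lintegral_congr fun w => ?_
  unfold PP
  have h1 : Measurable (fun t : ℝ => w - t) := by fun_prop
  have h3 := hcm.comp h1
  exact lintegral_const_mul (lam (r * pt v w)) (hkm.mul h3)

end Pool.Agent.H70.SO
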