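import Pool.Agent.H70.SO.FamB
import Pool.Agent.H70.SO.FamC

/-!
# The family inequality
-/

open MeasureTheory Set Filter Topology
open scoped ENNReal

noncomputable section

namespace Pool.Agent.H70.SO

open Pool.Agent.H70.SD

variable {T : Set ℂ} {r : ℝ}

lemma fam_key {X : Type*} [PseudoMetricSpace X] {S : Set ℂ} {R : Finset ℝ}
    {inn out : ℂ → X} {lam : ℂ → ℝ≥0∞} (h : SlitData Real.pi S R inn out lam) (hr : 0 < r)
    (hr1 : r < 1) (hmin : ∀ z ∈ S, r ≤ ‖z‖) (hT : MeasurableSet T)
    (hTS : ∀ z ∈ T, z ∈ S ∨ -z ∈ S) :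
    ENNReal.ofReal Real.pi * mass T r ≤ ∫⁻ v in Ioi (0 : ℝ),
      ENNReal.ofReal (r * rad v / Real.sqrt (1 + v ^ 2)) *
        ∫⁻ w in Ioo 0 (2 * Real.pi), lam (r * pt v w) * PP T r v w := by
  have hpi := Real.pi_pos
  have hm := h.meas
  have hcm := measurable_chi (r := r) hT
  have hLm := measurable_LL (r := r) hm hT
  have hrm := measurable_rad
  have h1 : ∀ A ∈ Ioi (0 : ℝ), ∀ θ, chi T r θ * ENNReal.ofReal Real.pi ≤
      chi T r θ * ∫⁻ t in Ioo 0 Real.pi, gl lam r A θ t := by
    intro A hA θ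
    by_cases hθ : (r : ℂ) * pt 0 θ ∈ T
    · exact mul_le_mul_right (arc_path h hr hr1 hmin (hTS _ hθ) hA) _
    · have : chi T r θ = 0 := by unfold chi; exact indicator_of_notMem hθ _
      rw [this, zero_mul, zero_mul]
  calc ENNReal.ofReal Real.pi * mass T r
      = ∫⁻ A in Ioi (0 : ℝ), WW A * ∫⁻ θ in Ioo 0 (2 * Real.pi),
          chi T r θ * ENNReal.ofReal Real.pi := by
        rw [lintegral_mul_const _ measurable_WW]
        unfold WW
        rw [abel_weight, one_mul, lintegral_mul_const _ hcm, mul_comm]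
        rfl
    _ ≤ ∫⁻ A in Ioi (0 : ℝ), WW A * ∫⁻ θ in Ioo 0 (2 * Real.pi),
          chi T r θ * ∫⁻ t in Ioo 0 Real.pi, gl lam r A θ t := by
        refine setLIntegral_mono' measurableSet_Ioi fun A hA => ?_
        exact mul_le_mul_right (lintegral_mono fun θ => h1 A hA θ) _
    _ = ∫⁻ A in Ioi (0 : ℝ), ∫⁻ t in Ioo 0 Real.pi, ENNReal.ofReal (A / (1 + A ^ 2)) *
          (ENNReal.ofReal (r * rad (A * Real.sin t) / Real.sqrt (1 + (A * Real.sin t) ^ 2)) *
            LL lam T r t (A * Real.sin t)) :=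
        setLIntegral_congr_fun measurableSet_Ioi fun A hA => gl_swap hm hT hA hr
    _ = ∫⁻ t in Ioo 0 Real.pi, ∫⁻ A in Ioi (0 : ℝ), ENNReal.ofReal (A / (1 + A ^ 2)) *
          (ENNReal.ofReal (r * rad (A * Real.sin t) / Real.sqrt (1 + (A * Real.sin t) ^ 2)) *
            LL lam T r t (A * Real.sin t)) := by
        have h2 : Measurable fun p : ℝ × ℝ => (p.2, p.1 * Real.sin p.2) := by fun_prop
        have h3 : Measurable fun p : ℝ × ℝ => ENNReal.ofReal (p.1 / (1 + p.1 ^ 2)) := by fun_prop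
        have h4 : Measurable fun p : ℝ × ℝ => ENNReal.ofReal (r * rad (p.1 * Real.sin p.2) /
            Real.sqrt (1 + (p.1 * Real.sin p.2) ^ 2)) := by fun_prop
        have h5 := hLm.comp h2
        have h6 := h3.mul (h4.mul h5)
        exact lintegral_lintegral_swap (μ := volume.restrict (Ioi (0 : ℝ)))
          (ν := volume.restrict (Ioo 0 Real.pi)) (f := fun A t => ENNReal.ofReal (A / (1 + A ^ 2)) *
          (ENNReal.ofReal (r * rad (A * Real.sin t) / Real.sqrt (1 + (A * Real.sin t) ^ 2)) *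
            LL lam T r t (A * Real.sin t))) h6.aemeasurable
    _ = ∫⁻ t in Ioo 0 Real.pi, ∫⁻ v in Ioi (0 : ℝ), kf v t *
          (ENNReal.ofReal (r * rad v / Real.sqrt (1 + v ^ 2)) * LL lam T r t v) := by
        refine setLIntegral_congr_fun measurableSet_Ioo fun t ht => ?_
        have hs : 0 < Real.sin t := Real.sin_pos_of_pos_of_lt_pi ht.1 ht.2
        exact abel_subst' (fun v => ENNReal.ofReal (r * rad v / Real.sqrt (1 + v ^ 2)) *
          LL lam T r t v) hs
    _ = ∫⁻ v in Ioi (0 : ℝ), ∫⁻ t in Ioo 0 Real.pi, kf v t *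
          (ENNReal.ofReal (r * rad v / Real.sqrt (1 + v ^ 2)) * LL lam T r t v) := by
        have h2 := measurable_kf.comp (measurable_swap (α := ℝ) (β := ℝ))
        have h3 : Measurable fun p : ℝ × ℝ => ENNReal.ofReal (r * rad p.2 /
          Real.sqrt (1 + p.2 ^ 2)) := by fun_prop
        have h4 := h2.mul (h3.mul hLm)
        exact lintegral_lintegral_swap (μ := volume.restrict (Ioo 0 Real.pi))
          (ν := volume.restrict (Ioi (0 : ℝ))) (f := fun t v => kf v t *
          (ENNReal.ofReal (r * rad v / Real.sqrt (1 + v ^ 2)) * LL lam T r t v)) h4.aemeasurable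
    _ = _ := by
        refine lintegral_congr fun v => ?_
        have hq : Measurable fun q : ℝ => (v, q) := by fun_prop
        have hq' : Measurable fun q : ℝ => (q, v) := by fun_prop
        have h2 := measurable_kf.comp hq
        have h3 := hLm.comp hq'
        have h4 := lintegral_const_mul (μ := volume.restrict (Ioo 0 Real.pi))
          (ENNReal.ofReal (r * rad v / Real.sqrt (1 + v ^ 2))) (h2.mul h3)
        rw [← kf_swap hm hT]
        refine Eq.trans (lintegral_congr fun t => ?_) h4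
        show kf v t * (ENNReal.ofReal (r * rad v / Real.sqrt (1 + v ^ 2)) * LL lam T r t v) =
          ENNReal.ofReal (r * rad v / Real.sqrt (1 + v ^ 2)) * (kf v t * LL lam T r t v)
        ring

/-- **The family inequality.** -/
theorem fam_lin {X : Type*} [PseudoMetricSpace X] {S : Set ℂ} {R : Finset ℝ}
    {inn out : ℂ → X} {lam : ℂ → ℝ≥0∞} (h : SlitData Real.pi S R inn out lam) (hr : 0 < r)
    (hr1 : r < 1) (hmin : ∀ z ∈ S, r ≤ ‖z‖) (hT : MeasurableSet T)
    (hTS : ∀ z ∈ T, z ∈ S ∨ -z ∈ S) :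
    mass T r ≤ 2 * ∫⁻ v in Ioi (0 : ℝ), JJ r v *
      ∫⁻ w in Ioo 0 (2 * Real.pi), lam (r * pt v w) * FF T r v w := by
  have hpi := Real.pi_pos
  have hlm := measurable_lam (r := r) h.meas
  have key := fam_key h hr hr1 hmin hT hTS
  -- compare the densities
  have e : ENNReal.ofReal Real.pi * (2 * ∫⁻ v in Ioi (0 : ℝ), JJ r v *
      ∫⁻ w in Ioo 0 (2 * Real.pi), lam (r * pt v w) * FF T r v w) =
      ∫⁻ v in Ioi (0 : ℝ), ENNReal.ofReal (r * rad v / Real.sqrt (1 + v ^ 2)) *
        ∫⁻ w in Ioo 0 (2 * Real.pi), lam (r * pt v w) * PP T r v w := by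
    have hlF := (hlm.mul (measurable_FF (r := r) hT)).lintegral_prod_right'
      (ν := volume.restrict (Ioo 0 (2 * Real.pi)))
    have hmF := (measurable_JJ (r := r)).mul hlF
    have h0 := lintegral_const_mul (μ := volume.restrict (Ioi (0 : ℝ)))
      (ENNReal.ofReal Real.pi * 2) hmF
    rw [← mul_assoc]
    refine h0.symm.trans (lintegral_congr fun v => ?_)
    show ENNReal.ofReal Real.pi * 2 * (JJ r v * ∫⁻ w in Ioo 0 (2 * Real.pi),
      lam (r * pt v w) * FF T r v w) = _
    have e1 : ∫⁻ w in Ioo 0 (2 * Real.pi), lam (r * pt v w) * FF T r v w =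
        ENNReal.ofReal (1 / (2 * Real.pi * r * rad v)) *
        ∫⁻ w in Ioo 0 (2 * Real.pi), lam (r * pt v w) * PP T r v w := by
      have hlv := hlm.comp (measurable_prodMk_left (x := v))
      have hPv := (measurable_PP (r := r) hT).comp (measurable_prodMk_left (x := v))
      have h1 := lintegral_const_mul (μ := volume.restrict (Ioo 0 (2 * Real.pi)))
        (ENNReal.ofReal (1 / (2 * Real.pi * r * rad v))) (hlv.mul hPv)
      refine Eq.trans (lintegral_congr fun w => ?_) h1
      show lam (r * pt v w) * FF T r v w =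
        ENNReal.ofReal (1 / (2 * Real.pi * r * rad v)) * (lam (r * pt v w) * PP T r v w)
      unfold FF; ring
    rw [e1, ← mul_assoc, ← mul_assoc]
    congr 1
    unfold JJ
    have q2 := sqrt_pos' v
    have q3 := rad_pos v
    rw [← ENNReal.ofReal_ofNat, ← ENNReal.ofReal_mul (by positivity),
      ← ENNReal.ofReal_mul (by positivity), ← ENNReal.ofReal_mul (by positivity)]
    congr 1
    field_simp
  rw [← e] at key
  rwa [ENNReal.mul_le_mul_iff_right (by simpa using hpi) ENNReal.ofReal_ne_top] at key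

end Pool.Agent.H70.SO
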