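import Pool.Agent.H70.SO.Comb
import Pool.Agent.H70.SD.Fin

/-!
# The improved inequality for slit discs of the double
-/

open MeasureTheory Set Filter Topology
open scoped ENNReal

noncomputable section

namespace Pool.Agent.H70.SO

open Pool.Agent.H70.SD

/-- The arc of the circle of radius `r` with the arguments between `a` and `b`. -/
def arc (r a b : ℝ) : Set ℂ := (fun w : ℝ => (r : ℂ) * pt 0 w) '' Ioo a b

lemma pt_zero (w : ℝ) : pt 0 w = Complex.exp (w * Complex.I) := by
  unfold pt; rw [rad_zero]; simp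

lemma pt_inj {w w' : ℝ} (h : pt 0 w = pt 0 w') (h1 : |w - w'| < 2 * Real.pi) : w = w' := by
  rw [pt_zero, pt_zero, Complex.exp_eq_exp_iff_exists_int] at h
  obtain ⟨n, hn⟩ := h
  have e : w = w' + n * (2 * Real.pi) := by
    have := congrArg Complex.im hn
    simpa using this
  have h2 : w - w' = n * (2 * Real.pi) := by linarith
  rw [h2, abs_mul, abs_of_pos Real.two_pi_pos] at h1
  have h3 : |(n : ℝ)| < 1 := by
    by_contra hc
    push Not at hc
    nlinarith [Real.two_pi_pos]
  have h4 : n = 0 := by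
    have : |n| < 1 := by exact_mod_cast h3
    exact Int.abs_lt_one_iff.1 this
  rw [h4] at e
  simpa using e

lemma continuous_rpt (r : ℝ) : Continuous fun w : ℝ => (r : ℂ) * pt 0 w := by
  have : (fun w : ℝ => (r : ℂ) * pt 0 w) = fun w : ℝ => (r : ℂ) * Complex.exp (w * Complex.I) := by
    ext w; rw [pt_zero]
  rw [this]; fun_prop

lemma measurableSet_arc {r : ℝ} (hr : 0 < r) {a b : ℝ} (hb : b ≤ a + Real.pi) :
    MeasurableSet (arc r a b) := by
  refine measurableSet_Ioo.image_of_continuousOn_injOn (continuous_rpt r).continuousOn ?_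
  intro w hw w' hw' h
  have h1 : pt 0 w = pt 0 w' := by
    have hr' : (r : ℂ) ≠ 0 := by exact_mod_cast hr.ne'
    exact mul_left_cancel₀ hr' h
  refine pt_inj h1 ?_
  rw [abs_lt]
  constructor <;> linarith [hw.1, hw.2, hw'.1, hw'.2, Real.pi_pos]

/-- the arc and its opposite -/
def TT (r a b : ℝ) : Set ℂ := arc r a b ∪ Neg.neg ⁻¹' arc r a b

lemma measurableSet_TT {r : ℝ} (hr : 0 < r) {a b : ℝ} (hb : b ≤ a + Real.pi) :
    MeasurableSet (TT r a b) :=
  (measurableSet_arc hr hb).union ((measurableSet_arc hr hb).preimage measurable_neg)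

lemma mass_TT {r : ℝ} {a b : ℝ} (hab : a ≤ b) (hb : b ≤ a + Real.pi) :
    ENNReal.ofReal (2 * (b - a)) ≤ mass (TT r a b) r := by
  have hpi := Real.pi_pos
  have e1 : mass (TT r a b) r = ∫⁻ u in Ioo 0 (2 * Real.pi), chi (TT r a b) r (a + u) :=
    (lintegral_period (g := chi (TT r a b) r) chi_per a).symm
  have h1 : ∀ u ∈ Ioo 0 (b - a), chi (TT r a b) r (a + u) = 1 := by
    intro u hu
    unfold chi
    rw [indicator_of_mem]
    · rfl
    · exact Or.inl ⟨a + u, ⟨by linarith [hu.1], by linarith [hu.2]⟩, rfl⟩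
  have h2 : ∀ u ∈ Ioo Real.pi (Real.pi + (b - a)), chi (TT r a b) r (a + u) = 1 := by
    intro u hu
    unfold chi
    rw [indicator_of_mem]
    · rfl
    · refine Or.inr ?_
      show -((r : ℂ) * pt 0 (a + u)) ∈ arc r a b
      refine ⟨a + (u - Real.pi), ⟨by linarith [hu.1], by linarith [hu.2]⟩, ?_⟩
      show (r : ℂ) * pt 0 (a + (u - Real.pi)) = -((r : ℂ) * pt 0 (a + u))
      have := pt_add_pi 0 (a + (u - Real.pi))
      rw [show a + (u - Real.pi) + Real.pi = a + u by ring] at this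
      rw [this]; ring
  have hdis : Disjoint (Ioo 0 (b - a)) (Ioo Real.pi (Real.pi + (b - a))) := by
    rw [Set.disjoint_left]
    rintro x ⟨_, h1⟩ ⟨h2, _⟩
    linarith
  have hsub : Ioo 0 (b - a) ∪ Ioo Real.pi (Real.pi + (b - a)) ⊆ Ioo 0 (2 * Real.pi) := by
    rintro x (hx | hx)
    · exact ⟨hx.1, by linarith [hx.2]⟩
    · exact ⟨by linarith [hx.1], by linarith [hx.2]⟩
  rw [e1]
  calc ENNReal.ofReal (2 * (b - a)) =
        (∫⁻ _u in Ioo 0 (b - a), (1 : ℝ≥0∞)) + ∫⁻ _u in Ioo Real.pi (Real.pi + (b - a)), 1 := by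
        rw [setLIntegral_const, setLIntegral_const, one_mul, one_mul, Real.volume_Ioo,
          Real.volume_Ioo, ← ENNReal.ofReal_add (by linarith) (by linarith)]
        congr 1; ring
    _ = (∫⁻ u in Ioo 0 (b - a), chi (TT r a b) r (a + u)) +
        ∫⁻ u in Ioo Real.pi (Real.pi + (b - a)), chi (TT r a b) r (a + u) := by
        rw [setLIntegral_congr_fun measurableSet_Ioo h1,
          setLIntegral_congr_fun measurableSet_Ioo h2]
    _ = ∫⁻ u in Ioo 0 (b - a) ∪ Ioo Real.pi (Real.pi + (b - a)), chi (TT r a b) r (a + u) :=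
        (lintegral_union measurableSet_Ioo hdis).symm
    _ ≤ _ := lintegral_mono_set hsub

/-- The gain produced by a slit of angular length `η` on the circle of radius `r`. -/
def gain (r η : ℝ) : ℝ :=
  η / Real.pi * (1 - 2 * r * Real.log (2 / (1 + r ^ 2)) / (1 - r ^ 2)) ^ 2

lemma gain_pos {r η : ℝ} (hr : 0 < r) (hr1 : r < 1) (hη : 0 < η) : 0 < gain r η := by
  have h := qq_lt_one hr hr1
  have hpi := Real.pi_pos
  have : 0 < 1 - qq r := by linarith
  show 0 < η / Real.pi * (1 - qq r) ^ 2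
  positivity

theorem slit_open' {X : Type*} [PseudoMetricSpace X] {S : Set ℂ} {R : Finset ℝ}
    {inn out : ℂ → X} {lam : ℂ → ℝ≥0∞} (h : SlitData Real.pi S R inn out lam) {r a b : ℝ}
    (hr : 0 < r) (hr1 : r < 1) (hab : a ≤ b) (hb : b ≤ a + Real.pi) (hmin : ∀ z ∈ S, r ≤ ‖z‖)
    (harc : ∀ w ∈ Ioo a b, (r : ℂ) * Complex.exp (w * Complex.I) ∈ S) :
    ENNReal.ofReal (1 + gain r (b - a)) * ENNReal.ofReal (2 * Real.pi) ≤
      ∫⁻ z in Metric.ball (0 : ℂ) 1, lam z ^ 2 := by
  have hpi := Real.pi_pos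
  have hsub : arc r a b ⊆ S := by
    rintro _ ⟨w, hw, rfl⟩
    simp only
    rw [pt_zero]
    exact harc w hw
  have main := slit_open h hr hr1 hmin (measurableSet_TT hr hb) (fun z hz => by
    rcases hz with hz | hz
    · exact Or.inl (hsub hz)
    · exact Or.inr (hsub hz))
  refine le_trans ?_ main
  calc _ = ENNReal.ofReal (2 * Real.pi) +
        ENNReal.ofReal ((1 - qq r) ^ 2) * ENNReal.ofReal (2 * (b - a)) := by
        have hb0 : 0 ≤ b - a := by linarith
        have hg : gain r (b - a) = (b - a) / Real.pi * (1 - qq r) ^ 2 := rfl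
        have g0 : 0 ≤ 1 + gain r (b - a) := by rw [hg]; positivity
        rw [← ENNReal.ofReal_mul g0, ← ENNReal.ofReal_mul (sq_nonneg (1 - qq r)),
          ← ENNReal.ofReal_add (by positivity) (by positivity), hg]
        congr 1
        field_simp
    _ ≤ _ := by gcongr; exact mass_TT hab hb

end Pool.Agent.H70.SO
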