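import Pool.Agent.H70.SD.Abel

/-!
# The linear inequality on the disc
-/

open MeasureTheory Set Filter Topology
open scoped ENNReal

noncomputable section

namespace Pool.Agent.H70.SO

open Pool.Agent.H70.SD

/-- The density of the great circles of the hemisphere. -/
def wt (z : ℂ) : ℝ≥0∞ := ENNReal.ofReal (2 / (1 + ‖z‖ ^ 2))

lemma measurable_wt : Measurable wt := by unfold wt; fun_prop

theorem abel_lin (lam : ℂ → ℝ≥0∞) (hm : Measurable lam)
    (hA : ∀ᵐ A ∂(volume.restrict (Ioi (0 : ℝ))), ENNReal.ofReal (Real.pi * Real.pi) ≤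
      ∫⁻ x in Ioo 0 (Real.pi / 2), Phi lam A x) :
    ENNReal.ofReal (2 * Real.pi) ≤ ∫⁻ z in Metric.ball (0 : ℂ) 1, lam z * wt z := by
  have hpi := Real.pi_pos
  set K : ℝ → ℝ≥0∞ := fun v => ENNReal.ofReal (rad v / Real.sqrt (1 + v ^ 2)) *
    ∫⁻ w in Ioo 0 (2 * Real.pi), lam (pt v w) with hK
  have hlm : Measurable (fun p : ℝ × ℝ => lam (pt p.1 p.2)) := hm.comp measurable_pt
  have hKm : Measurable K := by
    refine Measurable.mul ?_ hlm.lintegral_prod_right'
    unfold rad
    fun_prop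
  have h1 : ∀ᵐ A ∂(volume.restrict (Ioi (0 : ℝ))), ENNReal.ofReal (Real.pi * Real.pi) ≤
      ENNReal.ofReal (Real.sqrt (1 + A ^ 2)) *
      ∫⁻ x in Ioo 0 (Real.pi / 2), K (A * Real.sin x) := by
    filter_upwards [hA] with A h
    refine h.trans_eq ?_
    rw [← lintegral_const_mul]
    · refine lintegral_congr fun x => ?_
      unfold Phi
      have h2 := sqrt_pos' A
      have h3 := rad_pos (A * Real.sin x)
      have h4 := sqrt_pos' (A * Real.sin x)
      have hm5 : Measurable (fun w : ℝ => lam (pt (A * Real.sin x) w)) :=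
        hlm.comp measurable_prodMk_left
      rw [lintegral_mul_const _ hm5, hK]
      simp only
      rw [← mul_assoc, ← ENNReal.ofReal_mul h2.le, mul_comm]
      congr 2
      unfold spd
      ring
    · exact hKm.comp (by fun_prop)
  have h2 := abel_ineq hKm h1
  rw [lintegral_disc (f := fun z => lam z * wt z) (hm.mul measurable_wt)]
  have e1 : ∀ v ∈ Ioi (0 : ℝ), ENNReal.ofReal (Real.pi / (2 * Real.sqrt (1 + v ^ 2))) * K v =
      ENNReal.ofReal (Real.pi / 2) * (ENNReal.ofReal (rad v ^ 2 / Real.sqrt (1 + v ^ 2)) *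
        ∫⁻ w in Ioo 0 (2 * Real.pi), lam (pt v w) * wt (pt v w)) := by
    intro v _
    have r1 := rad_pos v
    have r2 := sqrt_pos' v
    have r3 := sq_sqrt' v
    have hm5 : Measurable (fun w : ℝ => lam (pt v w)) := hlm.comp measurable_prodMk_left
    have e2 : ∀ w, lam (pt v w) * wt (pt v w) =
        lam (pt v w) * ENNReal.ofReal (2 / (1 + rad v ^ 2)) := by
      intro w; rw [wt]; simp only [norm_pt]
    simp only [e2]
    rw [lintegral_mul_const _ hm5, hK]
    simp only
    rw [← mul_assoc, ← ENNReal.ofReal_mul (by positivity), mul_comm (∫⁻ _ in _, _), ← mul_assoc,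
      ← mul_assoc, ← ENNReal.ofReal_mul (by positivity), ← ENNReal.ofReal_mul (by positivity)]
    congr 2
    rw [rad_sq_eq]
    field_simp
  rw [setLIntegral_congr_fun measurableSet_Ioi e1, lintegral_const_mul] at h2
  · have h4 : ENNReal.ofReal (Real.pi * Real.pi) =
        ENNReal.ofReal (Real.pi / 2) * ENNReal.ofReal (2 * Real.pi) := by
      rw [← ENNReal.ofReal_mul (by positivity)]
      congr 1; ring
    rw [h4] at h2
    rwa [ENNReal.mul_le_mul_iff_right (by simpa using hpi) ENNReal.ofReal_ne_top] at h2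
  · refine Measurable.mul ?_ ?_
    · unfold rad; fun_prop
    · have : Measurable (fun p : ℝ × ℝ => lam (pt p.1 p.2) * wt (pt p.1 p.2)) :=
        (hm.mul measurable_wt).comp measurable_pt
      exact this.lintegral_prod_right'

/-- The linear inequality for slit data. -/
theorem slit_lin {X : Type*} [PseudoMetricSpace X] {S : Set ℂ} {R : Finset ℝ}
    {inn out : ℂ → X} {lam : ℂ → ℝ≥0∞} (h : SlitData Real.pi S R inn out lam) :
    ENNReal.ofReal (2 * Real.pi) ≤ ∫⁻ z in Metric.ball (0 : ℂ) 1, lam z * wt z := by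
  refine abel_lin lam h.meas ?_
  have h1 : ∀ᵐ A ∂(volume.restrict (Ioi (0 : ℝ))), ∀ r ∈ R, ∀ n κ : ℕ,
      rad (A * Real.sin (κ * hh n)) ≠ r := ae_restrict_of_ae (ae_generic h.rad_mem)
  have h2 : ∀ᵐ A ∂(volume.restrict (Ioi (0 : ℝ))), A ∈ Ioi (0 : ℝ) :=
    ae_restrict_mem measurableSet_Ioi
  filter_upwards [h1, h2] with A hA hA0
  exact avg_ineq h hA0 hA

end Pool.Agent.H70.SO
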